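import Pool.Agent.helper25.OAU.Spec

set_option autoImplicit false

/-!
Row oau:RS of the project oau (MP_d58e27_lc): the gadget of five positive triples.
-/

namespace Pool.Agent.helper25.OAU

open N68a2faeb N793a5b8e
open Pool.Agent.helper56.SGE hiding Pt
open Pool.Agent.helper56.SGE.QSys
open Pool.Agent.helper98.Tsei Pool.Agent.H54.PT
open Pool.Agent.helper14.AU

theorem RS_swap (x y c : Pt) : dt y x c = -dt x y c := by
  unfold dt
  ring

/-- the basic identity of plane vectors -/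
theorem RS_id (x y c0 c1 w : Pt) :
    ((y.1 - x.1) ^ 2 + (y.2 - x.2) ^ 2) * dt c1 c0 w =
      ((c0.1 - c1.1) * (y.1 - x.1) + (c0.2 - c1.2) * (y.2 - x.2)) * (dt x y w - dt x y c1) -
      ((y.1 - x.1) * (w.1 - c1.1) + (y.2 - x.2) * (w.2 - c1.2)) * (dt x y c0 - dt x y c1) := by
  unfold dt
  ring

theorem RS_pos (x y : Pt) (h : x ≠ y) : 0 < (y.1 - x.1) ^ 2 + (y.2 - x.2) ^ 2 := by
  by_contra hc
  have h1 : (y.1 - x.1) ^ 2 = 0 := by nlinarith [sq_nonneg (y.1 - x.1), sq_nonneg (y.2 - x.2)]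
  have h2 : (y.2 - x.2) ^ 2 = 0 := by nlinarith [sq_nonneg (y.1 - x.1), sq_nonneg (y.2 - x.2)]
  have h3 : y.1 - x.1 = 0 := by simpa using h1
  have h4 : y.2 - x.2 = 0 := by simpa using h2
  apply h
  ext
  · linarith
  · linarith

/-- the frame -/
theorem RS_frame (x y : Pt) (h : x ≠ y) : ∃ F : ℝ → ℝ → Pt, (∀ X Y, dt x y (F X Y) = Y) ∧
    (∀ X Y X' Y' X'' Y'', dt (F X Y) (F X' Y') (F X'' Y'') =
      (X' - X) * (Y'' - Y) - (X'' - X) * (Y' - Y)) ∧ ∀ z : Pt, ∃ ρ : ℝ, z = F ρ (dt x y z) := by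
  have hS := RS_pos x y h
  set S := (y.1 - x.1) ^ 2 + (y.2 - x.2) ^ 2 with hSdef
  have hS0 : S ≠ 0 := hS.ne'
  refine ⟨fun X Y => (x.1 + X * (y.1 - x.1) - Y * (y.2 - x.2) / S,
    x.2 + X * (y.2 - x.2) + Y * (y.1 - x.1) / S), ?_, ?_, ?_⟩
  · intro X Y
    unfold dt
    dsimp only
    field_simp
    rw [hSdef]
    ring
  · intro X Y X' Y' X'' Y''
    unfold dt
    dsimp only
    have h1 : ((x.1 + X' * (y.1 - x.1) - Y' * (y.2 - x.2) / S) -
        (x.1 + X * (y.1 - x.1) - Y * (y.2 - x.2) / S)) *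
        ((x.2 + X'' * (y.2 - x.2) + Y'' * (y.1 - x.1) / S) -
          (x.2 + X * (y.2 - x.2) + Y * (y.1 - x.1) / S)) -
        ((x.1 + X'' * (y.1 - x.1) - Y'' * (y.2 - x.2) / S) -
        (x.1 + X * (y.1 - x.1) - Y * (y.2 - x.2) / S)) *
        ((x.2 + X' * (y.2 - x.2) + Y' * (y.1 - x.1) / S) -
          (x.2 + X * (y.2 - x.2) + Y * (y.1 - x.1) / S)) =
        ((X' - X) * (Y'' - Y) - (X'' - X) * (Y' - Y)) *
          (((y.1 - x.1) ^ 2 + (y.2 - x.2) ^ 2) / S) := by ring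
    rw [h1, ← hSdef, div_self hS0, mul_one]
  · intro z
    refine ⟨((z.1 - x.1) * (y.1 - x.1) + (z.2 - x.2) * (y.2 - x.2)) / S, ?_⟩
    ext
    · dsimp only
      have h1 : x.1 + ((z.1 - x.1) * (y.1 - x.1) + (z.2 - x.2) * (y.2 - x.2)) / S * (y.1 - x.1) -
          dt x y z * (y.2 - x.2) / S =
          x.1 + (z.1 - x.1) * (((y.1 - x.1) ^ 2 + (y.2 - x.2) ^ 2) / S) := by
        unfold dt
        ring
      rw [h1, ← hSdef, div_self hS0]
      ring
    · dsimp only
      have h1 : x.2 + ((z.1 - x.1) * (y.1 - x.1) + (z.2 - x.2) * (y.2 - x.2)) / S * (y.2 - x.2) +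
          dt x y z * (y.1 - x.1) / S =
          x.2 + (z.2 - x.2) * (((y.1 - x.1) ^ 2 + (y.2 - x.2) ^ 2) / S) := by
        unfold dt
        ring
      rw [h1, ← hSdef, div_self hS0]
      ring

theorem RS_ne (x y c0 : Pt) (a : ℝ) (ha : 0 < a) (h : dt x y c0 = a) : x ≠ y := by
  rintro rfl
  unfold dt at h
  simp only [sub_self, zero_mul, mul_zero] at h
  linarith

/-- ROW oau:RS -/
theorem RS : RS_stmt := by
  refine ⟨?_, ?_, ?_⟩
  · intro x y z c0 c1 c2 h0 h1 h2 h3 h4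
    have hne := RS_ne x y c0 1 one_pos h0
    have hS := RS_pos x y hne
    refine ⟨hne, ?_⟩
    have i1 := RS_id x y c0 c1 c2
    have i2 := RS_id x y c0 c1 z
    rw [RS_swap] at h2
    have h2' : dt x y c2 = -1 := by linarith
    rw [h0, h1, h2', h3] at i1
    rw [h0, h1, h4] at i2
    set S := (y.1 - x.1) ^ 2 + (y.2 - x.2) ^ 2
    set s := (c0.1 - c1.1) * (y.1 - x.1) + (c0.2 - c1.2) * (y.2 - x.2)
    have hs : s = -S := by linarith
    rw [hs] at i2
    have h5 : S * dt x y z = 0 := by linarith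
    exact (mul_eq_zero.mp h5).resolve_left hS.ne'
  · intro x y z c0 c1 c2 h0 h1 h2 h3 h4
    have hne := RS_ne x y c0 2 two_pos h0
    have hS := RS_pos x y hne
    refine ⟨hne, ?_⟩
    have i1 := RS_id x y c0 c1 c2
    have i2 := RS_id x y c0 c1 z
    rw [RS_swap] at h2
    have h2' : dt x y c2 = -1 := by linarith
    rw [h0, h1, h2', h3] at i1
    rw [h0, h1, h4] at i2
    set S := (y.1 - x.1) ^ 2 + (y.2 - x.2) ^ 2
    set s := (c0.1 - c1.1) * (y.1 - x.1) + (c0.2 - c1.2) * (y.2 - x.2)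
    have hs : s = -S := by linarith
    rw [hs] at i2
    have h5 : S * (dt x y z - 1) = 0 := by linarith
    have h6 := (mul_eq_zero.mp h5).resolve_left hS.ne'
    linarith
  · intro x y z hxy a1 a2 a3 e b ha1 ha2 ha3 he hb hyp
    obtain ⟨F, hF1, hF2, hF3⟩ := RS_frame x y hxy
    obtain ⟨ρ, hρ⟩ := hF3 z
    set l := dt x y z with hl
    have key : ∀ X0 X1 X2 : ℝ, (X0 - X1) * (-a3 - a2) - (X2 - X1) * (a1 - a2) = e →
        X0 * (l - a2) + X1 * (a1 - l) - ρ * (a1 - a2) = b →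
        ∃ c0 c1 c2 : Pt, dt x y c0 = a1 ∧ dt x y c1 = a2 ∧ dt y x c2 = a3 ∧ dt c1 c0 c2 = e ∧
          dt c1 c0 z = b := by
      intro X0 X1 X2 e1 e2
      refine ⟨F X0 a1, F X1 a2, F X2 (-a3), hF1 _ _, hF1 _ _, ?_, ?_, ?_⟩
      · rw [RS_swap, hF1]
        ring
      · rw [hF2]
        linarith
      · rw [hρ, hF2]
        linarith
    by_cases hc : a1 = a2
    · have hl2 := hyp hc
      refine key (-e / (a1 + a3)) 0 0 ?_ ?_
      · rw [← hc]
        have : a1 + a3 ≠ 0 := by positivity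
        field_simp
        ring
      · rw [hl2, ← hc]
        have : a1 + a3 ≠ 0 := by positivity
        have : e ≠ 0 := he.ne'
        field_simp
        ring
    · have hc' : a1 - a2 ≠ 0 := sub_ne_zero.mpr hc
      by_cases hd : l = a2
      · refine key 0 ((b + ρ * (a1 - a2)) / (a1 - a2))
          ((b + ρ * (a1 - a2)) / (a1 - a2) +
            ((b + ρ * (a1 - a2)) / (a1 - a2) * (a3 + a2) - e) / (a1 - a2)) ?_ ?_
        · field_simp
          ring
        · rw [hd]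
          field_simp
          ring
      · have hd' : l - a2 ≠ 0 := sub_ne_zero.mpr hd
        refine key ((b + ρ * (a1 - a2)) / (l - a2)) 0
          (((b + ρ * (a1 - a2)) / (l - a2) * (-a3 - a2) - e) / (a1 - a2)) ?_ ?_
        · have h9 : ∀ q : ℝ, (q - 0) * (-a3 - a2) - ((q * (-a3 - a2) - e) / (a1 - a2) - 0) *
              (a1 - a2) = e := by
            intro q
            field_simp
            ring
          exact h9 _
        · field_simp
          ring

end Pool.Agent.helper25.OAU
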